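import Mathlib

/-!
# Permutations with a prescribed pattern
-/

set_option autoImplicit false

open Finset Nat

namespace SetCoverLP

theorem factorial_pow_le {x N : ℕ} (h : x ≤ N) : x ! ^ N ≤ N ! ^ x := by
  obtain ⟨d, rfl⟩ := Nat.exists_eq_add_of_le h
  have h1 : x ! * x ^ d ≤ (x + d)! := by
    refine le_trans ?_ (Nat.factorial_mul_pow_le_factorial (m := x) (n := d))
    gcongr
    omega
  calc x ! ^ (x + d) = x ! ^ x * x ! ^ d := pow_add _ _ _
    _ ≤ x ! ^ x * (x ^ x) ^ d := by
        gcongr
        exact Nat.factorial_le_pow x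
    _ = (x ! * x ^ d) ^ x := by
        rw [mul_pow, ← pow_mul, ← pow_mul, mul_comm d x]
    _ ≤ (x + d)! ^ x := by gcongr

theorem prod_factorial_le {ι : Type*} (s : Finset ι) (m : ι → ℕ) (n : ℕ)
    (hsum : ∑ c ∈ s, m c = n) (hle : ∀ c ∈ s, 2 * m c ≤ n) :
    2 ^ n * ∏ c ∈ s, (m c)! ≤ (n + 1) * n ! := by
  set N := n / 2 with hN
  have hmN : ∀ c ∈ s, m c ≤ N := fun c hc => by
    have := hle c hc
    omega
  have h1 : (∏ c ∈ s, (m c)!) ^ N ≤ N ! ^ n := by
    rw [← prod_pow, ← hsum, ← prod_pow_eq_pow_sum]
    exact prod_le_prod' fun c hc => factorial_pow_le (hmN c hc)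
  rcases Nat.eq_zero_or_pos N with h0 | h0
  · have : ∀ c ∈ s, (m c)! = 1 := fun c hc => by
      have := hmN c hc
      rw [h0] at this
      rw [Nat.le_zero.1 this]
      rfl
    rw [prod_congr rfl this]
    have hn : n = 0 ∨ n = 1 := by omega
    rcases hn with rfl | rfl <;> simp
  · rcases Nat.even_or_odd' n with ⟨M, hM | hM⟩
    · have hNM : N = M := by omega
      have h2 : (∏ c ∈ s, (m c)!) ^ N ≤ (N ! ^ 2) ^ N := by
        refine h1.trans_eq ?_
        rw [← pow_mul, hM, hNM]
      have h3 := (Nat.pow_le_pow_iff_left h0.ne').1 h2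
      have h4 : 4 ^ N ≤ (2 * N + 1) * Nat.centralBinom N := by
        rw [Nat.centralBinom]
        exact Nat.four_pow_le_two_mul_add_one_mul_central_binom N
      have h5 : Nat.centralBinom N * N ! * N ! = (2 * N)! := by
        rw [Nat.centralBinom]
        have := Nat.choose_mul_factorial_mul_factorial (n := 2 * N) (k := N) (by omega)
        rwa [show 2 * N - N = N by omega] at this
      have hn : n = 2 * N := by omega
      calc 2 ^ n * ∏ c ∈ s, (m c)! ≤ 4 ^ N * N ! ^ 2 := by
            rw [hn, pow_mul]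
            exact Nat.mul_le_mul le_rfl h3
        _ ≤ ((2 * N + 1) * Nat.centralBinom N) * N ! ^ 2 := by gcongr
        _ = (2 * N + 1) * (Nat.centralBinom N * N ! * N !) := by ring
        _ = (n + 1) * n ! := by rw [h5, ← hn]
    · have hNM : N = M := by omega
      have h2 : (∏ c ∈ s, (m c)!) ^ N ≤ (N ! ^ 2 * N) ^ N := by
        refine h1.trans ?_
        rw [mul_pow, ← pow_mul, hM, hNM, pow_succ]
        gcongr
        exact Nat.factorial_le_pow M
      have h3 := (Nat.pow_le_pow_iff_left h0.ne').1 h2
      have h4 : 4 ^ N ≤ (2 * N + 1) * Nat.centralBinom N := by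
        rw [Nat.centralBinom]
        exact Nat.four_pow_le_two_mul_add_one_mul_central_binom N
      have h5 : Nat.centralBinom N * N ! * N ! = (2 * N)! := by
        rw [Nat.centralBinom]
        have := Nat.choose_mul_factorial_mul_factorial (n := 2 * N) (k := N) (by omega)
        rwa [show 2 * N - N = N by omega] at this
      have hn : n = 2 * N + 1 := by omega
      calc 2 ^ n * ∏ c ∈ s, (m c)! ≤ (2 * 4 ^ N) * (N ! ^ 2 * N) := by
            rw [hn, pow_succ, pow_mul, mul_comm _ 2]
            exact Nat.mul_le_mul le_rfl h3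
        _ ≤ (2 * ((2 * N + 1) * Nat.centralBinom N)) * (N ! ^ 2 * N) := by gcongr
        _ = 2 * N * ((2 * N + 1) * (Nat.centralBinom N * N ! * N !)) := by ring
        _ = 2 * N * n ! := by
            rw [h5, hn, Nat.factorial_succ]
        _ ≤ (n + 1) * n ! := by
            gcongr
            omega

theorem card_comp_eq_le {α ι : Type*} [Fintype α] [DecidableEq α] [DecidableEq ι]
    (f B : α → ι) :
    (univ.filter fun σ : Equiv.Perm α => f ∘ σ = B).card ≤
      ∏ c ∈ univ.image f, ((univ.filter fun a => f a = c).card)! := by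
  classical
  rcases (univ.filter fun σ : Equiv.Perm α => f ∘ σ = B).eq_empty_or_nonempty with h | ⟨σ₀, h0⟩
  · rw [h]
    exact Nat.zero_le _
  · have hσ0 : f ∘ σ₀ = B := (mem_filter.1 h0).2
    have h1 := DomMulAct.stabilizer_card' f
    have h2 : ∏ c ∈ univ.image f, ((univ.filter fun a => f a = c).card)! =
        Fintype.card {g : Equiv.Perm α // f ∘ g = f} := by
      rw [h1]
      refine prod_congr rfl fun c _ => ?_
      rw [Fintype.card_subtype]
    rw [h2, Fintype.card_subtype]
    refine card_le_card_of_injOn (fun σ => σ * σ₀⁻¹) ?_ ?_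
    · intro σ hσ
      have hσ' : f ∘ σ = B := (mem_filter.1 hσ).2
      simp only [coe_filter, mem_univ, true_and, Set.mem_ofPred_eq]
      funext x
      have e1 := congrFun hσ' (σ₀⁻¹ x)
      have e2 := congrFun hσ0 (σ₀⁻¹ x)
      simp only [Function.comp_apply] at e1 e2 ⊢
      rw [Equiv.Perm.mul_apply, e1, ← e2]
      simp
    · intro a _ b _ hab
      exact mul_right_cancel hab

/-- The number of permutations `σ` with `C ∘ π ∘ σ = B`, if `π` is balanced and the fibres of `C`
are not larger than half of the space. -/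
theorem count {k h : ℕ} {ι : Type*} [DecidableEq ι] (π : Fin (k * h) → Fin k)
    (hπ : ∀ i, (univ.filter fun x => π x = i).card = h) (C : Fin k → ι)
    (hC : ∀ c, 2 * (univ.filter fun i => C i = c).card ≤ k) (B : Fin (k * h) → ι) :
    2 ^ (k * h) * (univ.filter fun σ : Equiv.Perm (Fin (k * h)) => (C ∘ π) ∘ σ = B).card ≤
      (k * h + 1) * (k * h)! := by
  classical
  have h1 : ∀ c, (univ.filter fun x => (C ∘ π) x = c).card =
      (univ.filter fun i => C i = c).card * h := by
    intro c
    have e1 : (univ.filter fun x => (C ∘ π) x = c) =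
        (univ.filter fun i => C i = c).biUnion fun i => univ.filter fun x => π x = i := by
      ext x
      simp
    rw [e1, card_biUnion]
    · rw [sum_congr rfl fun i _ => hπ i, sum_const, smul_eq_mul]
    · intro i _ j _ hij
      rw [Function.onFun, disjoint_left]
      intro x hx hy
      exact hij ((mem_filter.1 hx).2.symm.trans (mem_filter.1 hy).2)
  refine (Nat.mul_le_mul le_rfl (card_comp_eq_le (C ∘ π) B)).trans ?_
  refine prod_factorial_le (univ.image (C ∘ π)) _ (k * h) ?_ ?_
  · rw [← card_eq_sum_card_image, Finset.card_univ, Fintype.card_fin]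
  · intro c _
    rw [h1, ← mul_assoc]
    exact Nat.mul_le_mul (hC c) le_rfl

end SetCoverLP
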