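import Mathlib

/-!
# Characters of small support and their orthogonality on the affine space `∑ f = 1`
-/

set_option autoImplicit false

open Finset

namespace SetCoverLP

/-- the support of a character of `Fin k → ZMod p` -/
noncomputable def supp {k p : ℕ} (α : Fin k → ZMod p) : Finset (Fin k) :=
  univ.filter fun i => α i ≠ 0

theorem mem_supp {k p : ℕ} (α : Fin k → ZMod p) (i : Fin k) : i ∈ supp α ↔ α i ≠ 0 := by
  simp [supp]

/-- the characters of support less than `D` -/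
noncomputable def Lam (k p D : ℕ) [NeZero p] : Finset (Fin k → ZMod p) :=
  univ.filter fun α => (supp α).card < D

theorem mem_Lam {k p D : ℕ} [NeZero p] (α : Fin k → ZMod p) :
    α ∈ Lam k p D ↔ (supp α).card < D := by
  simp [Lam]

/-- the Fourier coefficient -/
noncomputable def coef {n p : ℕ} [NeZero p] (a : (Fin n → ZMod p) → ℝ) (β : Fin n → ZMod p) : ℂ :=
  ∑ f, (a f : ℂ) * ZMod.stdAddChar (f ⬝ᵥ β)

/-- the sums of `f` over the parts -/
noncomputable def part {n k p : ℕ} (ρ : Fin n → Fin k) (f : Fin n → ZMod p) : Fin k → ZMod p :=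
  fun i => ∑ x ∈ univ.filter (fun x => ρ x = i), f x

theorem dot_comp {n k p : ℕ} (ρ : Fin n → Fin k) (f : Fin n → ZMod p) (α : Fin k → ZMod p) :
    f ⬝ᵥ (α ∘ ρ) = part ρ f ⬝ᵥ α := by
  classical
  simp only [dotProduct, part, Function.comp_apply, sum_mul]
  rw [← sum_fiberwise (s := univ) (g := ρ)]
  refine sum_congr rfl fun i _ => sum_congr rfl fun x hx => ?_
  rw [(mem_filter.1 hx).2]

theorem norm_coef_le {n p : ℕ} [NeZero p] (a : (Fin n → ZMod p) → ℝ) (h0 : ∀ f, 0 ≤ a f)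
    (β : Fin n → ZMod p) : ‖coef a β‖ ≤ ∑ f, a f := by
  refine (norm_sum_le _ _).trans (sum_le_sum fun f _ => ?_)
  rw [norm_mul, Complex.norm_real, Real.norm_of_nonneg (h0 f)]
  simp

theorem stdAddChar_ne_one {p : ℕ} [NeZero p] {a : ZMod p} (ha : a ≠ 0) :
    (ZMod.stdAddChar a : ℂ) ≠ 1 := by
  intro h
  apply ha
  have := ZMod.injective_stdAddChar (N := p) (h.trans (AddChar.map_zero_eq_one _).symm)
  exact this

/-- the sum of a character over the `α` supported in `J` has a nonnegative real part -/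
theorem re_sum_nonneg {k p : ℕ} [NeZero p] (J : Finset (Fin k)) (z : Fin k → ZMod p) :
    0 ≤ (∑ α ∈ univ.filter (fun α : Fin k → ZMod p => supp α ⊆ J),
      (ZMod.stdAddChar (z ⬝ᵥ α) : ℂ)).re := by
  classical
  by_cases h : ∀ α : Fin k → ZMod p, supp α ⊆ J → z ⬝ᵥ α = 0
  · have : ∑ α ∈ univ.filter (fun α : Fin k → ZMod p => supp α ⊆ J),
        (ZMod.stdAddChar (z ⬝ᵥ α) : ℂ) =
        ((univ.filter (fun α : Fin k → ZMod p => supp α ⊆ J)).card : ℂ) := by
      rw [card_eq_sum_ones, Nat.cast_sum]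
      refine sum_congr rfl fun α hα => ?_
      rw [h α (mem_filter.1 hα).2, AddChar.map_zero_eq_one]
      simp
    rw [this]
    simp
  · push Not at h
    obtain ⟨α₀, h1, h2⟩ := h
    have hin : ∀ α : Fin k → ZMod p, supp α ⊆ J ↔ supp (α + α₀) ⊆ J := by
      intro α
      constructor
      · intro h i hi
        by_contra hc
        have e1 : α i = 0 := by
          by_contra h'
          exact hc (h ((mem_supp _ _).2 h'))
        have e2 : α₀ i = 0 := by
          by_contra h'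
          exact hc (h1 ((mem_supp _ _).2 h'))
        exact (mem_supp _ _).1 hi (by simp [e1, e2])
      · intro h i hi
        by_contra hc
        have e1 : (α + α₀) i = 0 := by
          by_contra h'
          exact hc (h ((mem_supp _ _).2 h'))
        have e2 : α₀ i = 0 := by
          by_contra h'
          exact hc (h1 ((mem_supp _ _).2 h'))
        rw [Pi.add_apply, e2, add_zero] at e1
        exact (mem_supp _ _).1 hi e1
    set s := ∑ α ∈ univ.filter (fun α : Fin k → ZMod p => supp α ⊆ J),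
        (ZMod.stdAddChar (z ⬝ᵥ α) : ℂ) with hs
    have h3 : s = ZMod.stdAddChar (z ⬝ᵥ α₀) * s := by
      conv_lhs => rw [hs]
      rw [hs, mul_sum]
      symm
      refine sum_equiv (Equiv.addRight α₀) ?_ ?_
      · intro α
        simp only [mem_filter, mem_univ, true_and, Equiv.coe_addRight]
        exact hin α
      · intro α _
        rw [Equiv.coe_addRight, dotProduct_add, AddChar.map_add_eq_mul, mul_comm]
    have h4 : (1 - (ZMod.stdAddChar (z ⬝ᵥ α₀) : ℂ)) * s = 0 := by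
      rw [sub_mul, one_mul, ← h3, sub_self]
    rcases mul_eq_zero.1 h4 with h5 | h5
    · exact absurd (sub_eq_zero.1 h5).symm (stdAddChar_ne_one h2)
    · rw [h5]
      simp

/-- the affine space -/
noncomputable def Aff (n p : ℕ) [NeZero p] : Finset (Fin n → ZMod p) :=
  univ.filter fun f => ∑ x, f x = 1

theorem mem_Aff {n p : ℕ} [NeZero p] (f : Fin n → ZMod p) : f ∈ Aff n p ↔ ∑ x, f x = 1 := by
  simp [Aff]

theorem card_Aff {n p : ℕ} [NeZero p] (hn : 0 < n) : p * (Aff n p).card = p ^ n := by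
  classical
  have h1 : ∀ s : ZMod p, (univ.filter fun f : Fin n → ZMod p => ∑ x, f x = s).card =
      (Aff n p).card := by
    intro s
    refine card_equiv (Equiv.addRight (Pi.single (⟨0, hn⟩ : Fin n) (1 - s))) ?_
    intro f
    rw [mem_Aff, mem_filter]
    simp only [mem_univ, true_and, Equiv.coe_addRight, Pi.add_apply, sum_add_distrib,
      sum_pi_single', if_true]
    constructor
    · intro h
      rw [h]
      ring
    · intro h
      linear_combination h
  have h2 : (univ : Finset (Fin n → ZMod p)).card =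
      ∑ s : ZMod p, (univ.filter fun f : Fin n → ZMod p => ∑ x, f x = s).card :=
    card_eq_sum_card_fiberwise fun f _ => mem_univ _
  rw [sum_congr rfl fun s _ => h1 s, sum_const, Finset.card_univ, Finset.card_univ, ZMod.card,
    Fintype.card_fun, Fintype.card_fin, ZMod.card, smul_eq_mul] at h2
  exact h2.symm

theorem sum_Aff_of_ne {n p : ℕ} [NeZero p] (β : Fin n → ZMod p) {x y : Fin n}
    (hβ : β x ≠ β y) : ∑ f ∈ Aff n p, (ZMod.stdAddChar (f ⬝ᵥ β) : ℂ) = 0 := by
  classical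
  let g : Fin n → ZMod p := Pi.single x 1 - Pi.single y 1
  set s := ∑ f ∈ Aff n p, (ZMod.stdAddChar (f ⬝ᵥ β) : ℂ) with hs
  have hg : g ⬝ᵥ β = β x - β y := by
    simp [g, sub_dotProduct]
  have h3 : s = ZMod.stdAddChar (g ⬝ᵥ β) * s := by
    conv_lhs => rw [hs]
    rw [hs, mul_sum]
    symm
    refine sum_equiv (Equiv.addRight g) ?_ ?_
    · intro f
      rw [mem_Aff, mem_Aff]
      simp only [Equiv.coe_addRight, Pi.add_apply, sum_add_distrib, g, Pi.sub_apply,
        sum_sub_distrib, sum_pi_single', mem_univ, if_true, sub_self, add_zero]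
    · intro f _
      rw [Equiv.coe_addRight, add_dotProduct, AddChar.map_add_eq_mul, mul_comm]
  have h4 : (1 - (ZMod.stdAddChar (g ⬝ᵥ β) : ℂ)) * s = 0 := by
    rw [sub_mul, one_mul, ← h3, sub_self]
  rcases mul_eq_zero.1 h4 with h5 | h5
  · refine absurd (sub_eq_zero.1 h5).symm (stdAddChar_ne_one ?_)
    rw [hg]
    exact sub_ne_zero.2 hβ
  · exact h5

theorem sum_Aff_comp {n k p : ℕ} [NeZero p] (ρ : Fin n → Fin k)
    (hρ : Function.Surjective ρ) (γ : Fin k → ZMod p) (hγ : (supp γ).card < k) :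
    ∑ f ∈ Aff n p, (ZMod.stdAddChar (f ⬝ᵥ (γ ∘ ρ)) : ℂ) =
      if γ = 0 then ((Aff n p).card : ℂ) else 0 := by
  classical
  split_ifs with h
  · rw [h, card_eq_sum_ones, Nat.cast_sum]
    refine sum_congr rfl fun f _ => ?_
    have : f ⬝ᵥ ((0 : Fin k → ZMod p) ∘ ρ) = 0 := by
      rw [show ((0 : Fin k → ZMod p) ∘ ρ) = 0 from rfl, dotProduct_zero]
    rw [this, AddChar.map_zero_eq_one]
    simp
  · have h1 : ∃ i, γ i ≠ 0 := by
      by_contra hc
      push Not at hc
      exact h (funext hc)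
    obtain ⟨i, hi⟩ := h1
    have h2 : ∃ j, γ j = 0 := by
      by_contra hc
      push Not at hc
      have : supp γ = univ := by
        ext j
        simp [mem_supp, hc j]
      rw [this] at hγ
      simp at hγ
    obtain ⟨j, hj⟩ := h2
    obtain ⟨x, hx⟩ := hρ i
    obtain ⟨y, hy⟩ := hρ j
    refine sum_Aff_of_ne (γ ∘ ρ) (x := x) (y := y) ?_
    simp only [Function.comp_apply, hx, hy, hj]
    exact hi

/-- `W = ∑_{α ∈ Λ} e(f ⬝ α ∘ ρ)` has mean one. -/
theorem sum_W {n k p D : ℕ} [NeZero p] (hD : 0 < D) (hDk : D ≤ k) (ρ : Fin n → Fin k)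
    (hρ : Function.Surjective ρ) :
    ∑ f ∈ Aff n p, ∑ α ∈ Lam k p D, (ZMod.stdAddChar (f ⬝ᵥ (α ∘ ρ)) : ℂ) =
      (Aff n p).card := by
  classical
  rw [sum_comm]
  have h1 : ∀ α ∈ Lam k p D, ∑ f ∈ Aff n p, (ZMod.stdAddChar (f ⬝ᵥ (α ∘ ρ)) : ℂ) =
      if α = 0 then ((Aff n p).card : ℂ) else 0 := by
    intro α hα
    exact sum_Aff_comp ρ hρ α (lt_of_lt_of_le ((mem_Lam α).1 hα) hDk)
  rw [sum_congr rfl h1, sum_ite_eq', if_pos]
  rw [mem_Lam]
  have : supp (0 : Fin k → ZMod p) = ∅ := by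
    ext i
    simp [mem_supp]
  rw [this]
  simpa using hD

theorem supp_single_card {k p : ℕ} (i : Fin k) (s : ZMod p) :
    (supp (Pi.single i s : Fin k → ZMod p)).card ≤ 1 := by
  classical
  have : supp (Pi.single i s : Fin k → ZMod p) ⊆ {i} := by
    intro j hj
    rw [mem_supp] at hj
    by_contra hc
    apply hj
    rw [Pi.single_eq_of_ne]
    intro h
    exact hc (by simp [h])
  exact (card_le_card this).trans_eq (card_singleton i)

theorem supp_add_card {k p : ℕ} (α γ : Fin k → ZMod p) :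
    (supp (α + γ)).card ≤ (supp α).card + (supp γ).card := by
  classical
  refine (card_le_card ?_).trans (card_union_le _ _)
  intro i hi
  rw [mem_union, mem_supp, mem_supp]
  by_contra hc
  push Not at hc
  exact (mem_supp _ _).1 hi (by simp [hc.1, hc.2])

theorem supp_neg {k p : ℕ} (γ : Fin k → ZMod p) : supp (-γ) = supp γ := by
  ext i
  simp [mem_supp]

theorem sum_W_shift {n k p D : ℕ} [NeZero p] (hD : 2 ≤ D) (hDk : D < k) (ρ : Fin n → Fin k)
    (hρ : Function.Surjective ρ) (γ : Fin k → ZMod p) (hγ : (supp γ).card ≤ 1) :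
    ∑ f ∈ Aff n p, ∑ α ∈ Lam k p D, (ZMod.stdAddChar (f ⬝ᵥ ((α + γ) ∘ ρ)) : ℂ) =
      (Aff n p).card := by
  classical
  rw [sum_comm]
  have h4 : ∀ α ∈ Lam k p D, ∑ f ∈ Aff n p,
      (ZMod.stdAddChar (f ⬝ᵥ ((α + γ) ∘ ρ)) : ℂ) =
      if α = -γ then ((Aff n p).card : ℂ) else 0 := by
    intro α hα
    have e0 : (supp (α + γ)).card < k := by
      have e1 := (mem_Lam α).1 hα
      have e2 := supp_add_card α γ
      omega
    rw [sum_Aff_comp ρ hρ (α + γ) e0]
    by_cases h : α = -γ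
    · rw [if_pos h, if_pos (by rw [h, neg_add_cancel])]
    · rw [if_neg h, if_neg (fun hc => h (eq_neg_iff_add_eq_zero.2 hc))]
  rw [sum_congr rfl h4, sum_ite_eq', if_pos]
  rw [mem_Lam, supp_neg]
  omega

/-- `W` has mean one on each of the events that the part `i` has the sum zero. -/
theorem sum_W_ite {n k p D : ℕ} [NeZero p] (hD : 2 ≤ D) (hDk : D < k) (ρ : Fin n → Fin k)
    (hρ : Function.Surjective ρ) (i : Fin k) :
    ∑ f ∈ Aff n p, (∑ α ∈ Lam k p D, (ZMod.stdAddChar (f ⬝ᵥ (α ∘ ρ)) : ℂ)) *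
      (if part ρ f i = 0 then 1 else 0) = (Aff n p).card := by
  classical
  have hp : (p : ℂ) ≠ 0 := Nat.cast_ne_zero.2 (NeZero.ne p)
  obtain ⟨γ, hγ0, hγ1⟩ : ∃ γ : ZMod p → (Fin k → ZMod p), (∀ s, (supp (γ s)).card ≤ 1) ∧
      ∀ s f, f ⬝ᵥ (γ s ∘ ρ) = s * part ρ f i := by
    refine ⟨fun s => Pi.single i s, fun s => supp_single_card i s, fun s f => ?_⟩
    rw [dot_comp, dotProduct_single, mul_comm]
  have hind : ∀ f : Fin n → ZMod p, (if part ρ f i = 0 then (1 : ℂ) else 0) =
      (1 / p) * ∑ s : ZMod p, (ZMod.stdAddChar (f ⬝ᵥ (γ s ∘ ρ)) : ℂ) := by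
    intro f
    simp only [hγ1]
    rw [AddChar.sum_mulShift _ (ZMod.isPrimitive_stdAddChar p), ZMod.card]
    split_ifs with h
    · field_simp
    · simp
  have h2 : ∀ f : Fin n → ZMod p,
      (∑ α ∈ Lam k p D, (ZMod.stdAddChar (f ⬝ᵥ (α ∘ ρ)) : ℂ)) *
      (if part ρ f i = 0 then 1 else 0) =
      (1 / p) * ∑ s : ZMod p, ∑ α ∈ Lam k p D,
        (ZMod.stdAddChar (f ⬝ᵥ ((α + γ s) ∘ ρ)) : ℂ) := by
    intro f
    rw [hind f, ← mul_assoc, mul_comm _ (1 / (p : ℂ)), mul_assoc, mul_sum]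
    congr 1
    refine sum_congr rfl fun s _ => ?_
    rw [sum_mul]
    refine sum_congr rfl fun α _ => ?_
    have e : (α + γ s) ∘ ρ = α ∘ ρ + γ s ∘ ρ := rfl
    rw [← AddChar.map_add_eq_mul, ← dotProduct_add, e]
  rw [sum_congr rfl fun f _ => h2 f, ← mul_sum, sum_comm,
    sum_congr rfl fun s _ => sum_W_shift hD hDk ρ hρ (γ s) (hγ0 s), sum_const, Finset.card_univ,
    ZMod.card, nsmul_eq_mul]
  field_simp

end SetCoverLP
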