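import Mathlib

/-!
Linear programming formulations of Set Cover: tell the families of `h`-subsets of a set with
`k * h` elements which contain a cover with `k` members from those which do not.
-/

set_option autoImplicit false

namespace SetCoverLP

/-- `P` is a cover of `Fin (k * h)` which consists of `k` sets of `h` elements (so it is a
partition). -/
def IsCover (k h : ℕ) (P : Finset (Finset (Fin (k * h)))) : Prop :=
  P.card = k ∧ (∀ A ∈ P, A.card = h) ∧ ∀ x, ∃ A ∈ P, x ∈ A

/-- `𝓕` is a family of sets of `h` elements. -/
def Uniform (k h : ℕ) (𝓕 : Finset (Finset (Fin (k * h)))) : Prop :=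
  ∀ A ∈ 𝓕, A.card = h

/-- A linear programming formulation with `r` inequalities of the problem to tell the families of
`h`-subsets of `Fin (k * h)` which contain a cover with `k` members from those which do not,
with gap `ε`.

The feasible region is the set of the `y : Fin d → ℝ` with `a i ⬝ᵥ y ≤ b i` for the `r`
inequalities `i` and `c j ⬝ᵥ y = e j` for the `m` equations `j`; it does not depend on the input
family, and the numbers `d` of variables and `m` of equations are not restricted.  Each cover `P`
with `k` sets of `h` elements has a feasible point `point P`.  The input family `𝓕` enters only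
through the affine objective function `y ↦ obj 𝓕 ⬝ᵥ y + obj0 𝓕`, whose value at `point P` is the
number of sets of the cover `P` which are in `𝓕`.  If `𝓕` contains no cover with `k` sets, the
objective function is at most `k - ε` on the whole feasible region (it is at least `k` somewhere
if `𝓕` contains such a cover). -/
structure LPFormulation (k h : ℕ) (ε : ℝ) (r : ℕ) where
  /-- number of variables -/
  d : ℕ
  /-- number of equations -/
  m : ℕ
  /-- left sides of the inequalities -/
  a : Fin r → Fin d → ℝ
  /-- right sides of the inequalities -/
  b : Fin r → ℝ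
  /-- left sides of the equations -/
  c : Fin m → Fin d → ℝ
  /-- right sides of the equations -/
  e : Fin m → ℝ
  /-- the point of a cover -/
  point : Finset (Finset (Fin (k * h))) → Fin d → ℝ
  /-- linear part of the objective function of a family -/
  obj : Finset (Finset (Fin (k * h))) → Fin d → ℝ
  /-- constant term of the objective function of a family -/
  obj0 : Finset (Finset (Fin (k * h))) → ℝ
  /-- the points of the covers satisfy the inequalities -/
  point_le : ∀ P, IsCover k h P → ∀ i, a i ⬝ᵥ point P ≤ b i
  /-- the points of the covers satisfy the equations -/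
  point_eq : ∀ P, IsCover k h P → ∀ j, c j ⬝ᵥ point P = e j
  /-- the objective function counts the sets of the cover in the family -/
  obj_point : ∀ 𝓕, Uniform k h 𝓕 → ∀ P, IsCover k h P →
    obj 𝓕 ⬝ᵥ point P + obj0 𝓕 = ((P ∩ 𝓕).card : ℕ)
  /-- the value is at most `k - ε` if there is no cover in the family -/
  sound : ∀ 𝓕, Uniform k h 𝓕 → (∀ P, IsCover k h P → ¬ P ⊆ 𝓕) → ∀ y : Fin d → ℝ,
    (∀ i, a i ⬝ᵥ y ≤ b i) → (∀ j, c j ⬝ᵥ y = e j) → obj 𝓕 ⬝ᵥ y + obj0 𝓕 ≤ k - ε

end SetCoverLP
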