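import Pool.Agent.Lib.MP_8fffab_lc_LP.Defs

/-!
# The dynamic program over the subsets as a linear program
-/

set_option autoImplicit false

open Finset

namespace SetCoverLP

/-- A formulation with arbitrary finite index types. -/
theorem mk_of_types {k h r : ℕ} {ε : ℝ} {κ μ : Type} [Fintype κ] [Fintype μ]
    (a : Fin r → κ → ℝ) (b : Fin r → ℝ) (c : μ → κ → ℝ) (e : μ → ℝ)
    (point : Finset (Finset (Fin (k * h))) → κ → ℝ) (obj : Finset (Finset (Fin (k * h))) → κ → ℝ)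
    (obj0 : Finset (Finset (Fin (k * h))) → ℝ)
    (point_le : ∀ P, IsCover k h P → ∀ i, a i ⬝ᵥ point P ≤ b i)
    (point_eq : ∀ P, IsCover k h P → ∀ j, c j ⬝ᵥ point P = e j)
    (obj_point : ∀ 𝓕, Uniform k h 𝓕 → ∀ P, IsCover k h P →
      obj 𝓕 ⬝ᵥ point P + obj0 𝓕 = ((P ∩ 𝓕).card : ℕ))
    (sound : ∀ 𝓕, Uniform k h 𝓕 → (∀ P, IsCover k h P → ¬ P ⊆ 𝓕) → ∀ y : κ → ℝ,
      (∀ i, a i ⬝ᵥ y ≤ b i) → (∀ j, c j ⬝ᵥ y = e j) → obj 𝓕 ⬝ᵥ y + obj0 𝓕 ≤ k - ε) :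
    Nonempty (LPFormulation k h ε r) := by
  classical
  let E := Fintype.equivFin κ
  let G := Fintype.equivFin μ
  have hE : ∀ (u : κ → ℝ) (y : Fin (Fintype.card κ) → ℝ), (u ∘ E.symm) ⬝ᵥ y = u ⬝ᵥ (y ∘ E) := by
    intro u y
    exact (comp_equiv_symm_dotProduct u y E)
  have hEE : ∀ (u v : κ → ℝ), (u ∘ E.symm) ⬝ᵥ (v ∘ E.symm) = u ⬝ᵥ v := by
    intro u v
    rw [hE]
    congr 1
    funext x
    simp
  refine ⟨{
    d := Fintype.card κ
    m := Fintype.card μ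
    a := fun i => a i ∘ E.symm
    b := b
    c := fun j => c (G.symm j) ∘ E.symm
    e := fun j => e (G.symm j)
    point := fun P => point P ∘ E.symm
    obj := fun 𝓕 => obj 𝓕 ∘ E.symm
    obj0 := obj0
    point_le := ?_
    point_eq := ?_
    obj_point := ?_
    sound := ?_ }⟩
  · intro P hP i
    rw [hEE]
    exact point_le P hP i
  · intro P hP j
    rw [hEE]
    exact point_eq P hP _
  · intro 𝓕 h𝓕 P hP
    rw [hEE]
    exact obj_point 𝓕 h𝓕 P hP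
  · intro 𝓕 h𝓕 hno y hy1 hy2
    rw [hE]
    refine sound 𝓕 h𝓕 hno (y ∘ E) (fun i => ?_) (fun j => ?_)
    · rw [← hE]
      exact hy1 i
    · rw [← hE]
      have := hy2 (G j)
      rw [Equiv.symm_apply_apply] at this
      exact this

/-- A nonnegative factorisation of the slack matrix gives a formulation. -/
theorem of_factorisation {k h r : ℕ} {ε : ℝ} (a : Finset (Finset (Fin (k * h))) → Fin r → ℝ)
    (b : Finset (Finset (Fin (k * h))) → Fin r → ℝ) (ha : ∀ 𝓕 j, 0 ≤ a 𝓕 j)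
    (hb : ∀ P j, 0 ≤ b P j)
    (hab : ∀ 𝓕, Uniform k h 𝓕 → (∀ P, IsCover k h P → ¬ P ⊆ 𝓕) → ∀ P, IsCover k h P →
      ∑ j, a 𝓕 j * b P j = k - ε - ((P ∩ 𝓕).card : ℕ)) :
    Nonempty (LPFormulation k h ε r) := by
  classical
  refine mk_of_types (κ := Finset (Fin (k * h)) ⊕ Fin r)
    (μ := {𝓕 : Finset (Finset (Fin (k * h))) // Uniform k h 𝓕 ∧ ∀ P, IsCover k h P → ¬ P ⊆ 𝓕})
    (fun i => Sum.elim 0 (Pi.single i (-1))) (fun _ => 0)
    (fun 𝓕 => Sum.elim (fun A => if A ∈ 𝓕.1 then 1 else 0) (a 𝓕.1)) (fun _ => k - ε)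
    (fun P => Sum.elim (fun A => if A ∈ P then 1 else 0) (b P))
    (fun 𝓕 => Sum.elim (fun A => if A ∈ 𝓕 then 1 else 0) 0) (fun _ => 0) ?_ ?_ ?_ ?_
  · intro P _ i
    rw [sumElim_dotProduct_sumElim, zero_dotProduct, zero_add, single_dotProduct]
    have := hb P i
    linarith
  · rintro P hP ⟨𝓕, h𝓕, hno⟩
    rw [sumElim_dotProduct_sumElim]
    have e1 : (fun A : Finset (Fin (k * h)) => if A ∈ 𝓕 then (1 : ℝ) else 0) ⬝ᵥ
        (fun A => if A ∈ P then 1 else 0) = ((P ∩ 𝓕).card : ℕ) := by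
      simp only [dotProduct, mul_ite, mul_one, mul_zero]
      rw [← sum_filter, ← sum_filter, filter_filter, sum_const, nsmul_eq_mul, mul_one]
      congr 2
      ext A
      simp
    have e2 : a 𝓕 ⬝ᵥ b P = k - ε - ((P ∩ 𝓕).card : ℕ) := hab 𝓕 h𝓕 hno P hP
    rw [e1, e2]
    ring
  · intro 𝓕 h𝓕 P hP
    rw [sumElim_dotProduct_sumElim, zero_dotProduct, add_zero, add_zero]
    simp only [dotProduct, mul_ite, mul_one, mul_zero]
    rw [← sum_filter, ← sum_filter, filter_filter, sum_const, nsmul_eq_mul, mul_one]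
    congr 2
    ext A
    simp
  · intro 𝓕 h𝓕 hno y hy1 hy2
    have e1 := hy2 ⟨𝓕, h𝓕, hno⟩
    obtain ⟨x, z, rfl⟩ : ∃ x z, y = Sum.elim x z := ⟨y ∘ Sum.inl, y ∘ Sum.inr, by simp⟩
    rw [sumElim_dotProduct_sumElim] at e1 ⊢
    have e2 : 0 ≤ a 𝓕 ⬝ᵥ z := by
      refine sum_nonneg fun j _ => mul_nonneg (ha 𝓕 j) ?_
      have := hy1 j
      rw [sumElim_dotProduct_sumElim, zero_dotProduct, zero_add, single_dotProduct] at this
      linarith
    rw [zero_dotProduct, add_zero, add_zero]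
    simp only at e1
    linarith

end SetCoverLP
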